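import Pool.Agent.helper81.CW.Spec2

/-! # Module J3 of project cw: similarity of bodies of constant width. -/

open MeasureTheory Set
open scoped ENNReal Pointwise

namespace Pool.Agent.helper81.CW

theorem J3_supp {n : ℕ} (C : Set (E n)) (hne : C.Nonempty) (hc : IsCompact C) (t : ℝ) (ht : 0 < t)
    (z u : E n) :
    supp ((fun x => t • (x - z)) '' C) u = t * (supp C u - inner ℝ u z) := by
  have hb : BddAbove ((fun x => (inner ℝ u x : ℝ)) '' C) :=
    (hc.image (by fun_prop)).bddAbove
  have hne1 : ((fun x => (inner ℝ u x : ℝ)) '' C).Nonempty := hne.image _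
  unfold supp
  have himg : (fun x => (inner ℝ u x : ℝ)) '' ((fun x => t • (x - z)) '' C) =
      (fun y : ℝ => t * (y - inner ℝ u z)) '' ((fun x => (inner ℝ u x : ℝ)) '' C) := by
    rw [image_image, image_image]
    apply image_congr
    intro x _
    rw [inner_smul_right, inner_sub_right]
  rw [himg]
  have hmono : Monotone (fun y : ℝ => t * (y - inner ℝ u z)) := by
    intro a b hab
    exact mul_le_mul_of_nonneg_left (by linarith) ht.le
  exact (hmono.map_csSup_of_continuousAt (by fun_prop) hne1 hb).symm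

theorem J3 : J3_stmt := by
  intro n C w t z hC ht
  obtain ⟨hne, hc, hconv, hw, hwid⟩ := hC
  refine ⟨⟨hne.image _, hc.image (by fun_prop), ?_, mul_pos ht hw, ?_⟩, ?_⟩
  · rintro _ ⟨x, hx, rfl⟩ _ ⟨y, hy, rfl⟩ a b ha hb hab
    refine ⟨a • x + b • y, hconv hx hy ha hb hab, ?_⟩
    have hz : z = a • z + b • z := by rw [← add_smul, hab, one_smul]
    show t • (a • x + b • y - z) = a • t • (x - z) + b • t • (y - z)
    conv_lhs => rw [hz]
    module
  · intro u hu
    rw [J3_supp C hne hc t ht z u, J3_supp C hne hc t ht z (-u), inner_neg_left, ← hwid u hu]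
    ring
  · have himg : (fun x => t • (x - z)) '' C = t • ((fun x => x + (-z)) '' C) := by
      ext y
      simp only [mem_image, mem_smul_set]
      constructor
      · rintro ⟨x, hx, rfl⟩
        exact ⟨x + (-z), ⟨x, hx, rfl⟩, by rw [sub_eq_add_neg]⟩
      · rintro ⟨_, ⟨x, hx, rfl⟩, rfl⟩
        exact ⟨x, hx, by rw [sub_eq_add_neg]⟩
    rw [himg, Measure.addHaar_smul_of_nonneg _ ht.le, finrank_euclideanSpace, Fintype.card_fin,
      image_add_right, measure_preimage_add_right]

end Pool.Agent.helper81.CW
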